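import Mathlib

set_option autoImplicit false

namespace Pool.Agent.Helper919

open Finset

/-- number of residues `x` in `[0,c)` with `x ^ 2 = n` modulo `c` -/
def rho (n : ℤ) (c : ℕ) : ℕ :=
  ((Finset.range c).filter (fun x : ℕ => (c : ℤ) ∣ (x : ℤ) ^ 2 - n)).card

theorem rho_zero (n : ℤ) : rho n 0 = 0 := by simp [rho]

theorem rho_one (n : ℤ) : rho n 1 = 1 := by simp [rho]

theorem rho_eq_card (n : ℤ) (c : ℕ) [NeZero c] :
    rho n c = Nat.card {x : ZMod c // x ^ 2 = (n : ZMod c)} := by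
  rw [rho, Nat.subtype_card (Finset.univ.filter (fun x : ZMod c => x ^ 2 = (n : ZMod c)))
    (by intro x; simp)]
  refine Finset.card_bij' (fun x _ => (x : ZMod c)) (fun y _ => y.val) ?_ ?_ ?_ ?_
  · intro x hx
    simp only [mem_filter, mem_range, mem_univ, true_and] at hx ⊢
    have h := (ZMod.intCast_zmod_eq_zero_iff_dvd ((x : ℤ) ^ 2 - n) c).2 hx.2
    push_cast at h
    exact sub_eq_zero.1 h
  · intro y hy
    simp only [mem_filter, mem_range, mem_univ, true_and] at hy ⊢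
    refine ⟨ZMod.val_lt y, ?_⟩
    rw [← ZMod.intCast_zmod_eq_zero_iff_dvd]
    push_cast
    rw [ZMod.natCast_zmod_val, hy, sub_self]
  · intro x hx
    simp only [mem_filter, mem_range] at hx
    exact ZMod.val_cast_of_lt hx.1
  · intro y _
    exact ZMod.natCast_zmod_val y

theorem rho_mul (n : ℤ) {a b : ℕ} (hab : a.Coprime b) : rho n (a * b) = rho n a * rho n b := by
  rcases Nat.eq_zero_or_pos a with ha | ha
  · simp [ha, rho_zero]
  rcases Nat.eq_zero_or_pos b with hb | hb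
  · simp [hb, rho_zero]
  have : NeZero a := ⟨ha.ne'⟩
  have : NeZero b := ⟨hb.ne'⟩
  have : NeZero (a * b) := ⟨(Nat.mul_pos ha hb).ne'⟩
  rw [rho_eq_card, rho_eq_card, rho_eq_card, ← Nat.card_prod]
  let e := ZMod.chineseRemainder hab
  refine Nat.card_congr ?_
  refine (Equiv.subtypeEquiv (p := fun x : ZMod (a * b) => x ^ 2 = (n : ZMod (a * b)))
    (q := fun y : ZMod a × ZMod b => y.1 ^ 2 = (n : ZMod a) ∧ y.2 ^ 2 = (n : ZMod b)) e.toEquiv ?_).trans ?_
  · intro x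
    constructor
    · intro h
      have h2 := congrArg e h
      rw [map_pow, map_intCast] at h2
      have h3 := congrArg Prod.fst h2
      have h4 := congrArg Prod.snd h2
      simp only [Prod.pow_fst, Prod.pow_snd, Prod.fst_intCast, Prod.snd_intCast] at h3 h4
      exact ⟨h3, h4⟩
    · rintro ⟨h3, h4⟩
      apply e.injective
      rw [map_pow, map_intCast]
      apply Prod.ext
      · simpa using h3
      · simpa using h4
  · exact Equiv.subtypeProdEquivProd (p := fun x : ZMod a => x ^ 2 = (n : ZMod a))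
      (q := fun y : ZMod b => y ^ 2 = (n : ZMod b))


theorem card_two_cong_le (n : ℤ) (hn : n ≠ 0) (b d e : ℕ) (hb : 0 < b) (hde : b = d * e) (y : ℤ)
    (hy : (b : ℤ) ∣ y ^ 2 - n) :
    ((Finset.range b).filter (fun x : ℕ => (d : ℤ) ∣ (x : ℤ) - y ∧ (e : ℤ) ∣ (x : ℤ) + y)).card
      ≤ 4 * n.natAbs := by
  have hd : 0 < d := Nat.pos_of_ne_zero (by rintro rfl; simp at hde; omega)
  have he : 0 < e := Nat.pos_of_ne_zero (by rintro rfl; simp at hde; omega)
  set A := (Finset.range b).filter (fun x : ℕ => (d : ℤ) ∣ (x : ℤ) - y ∧ (e : ℤ) ∣ (x : ℤ) + y) with hA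
  rcases A.eq_empty_or_nonempty with h0 | ⟨x0, hx0⟩
  · rw [h0]; simp
  have hx0' := (Finset.mem_filter.1 hx0).2
  have hgpos : 0 < Nat.gcd d e := Nat.gcd_pos_of_pos_left _ hd
  have hLpos : 0 < Nat.lcm d e := Nat.lcm_pos hd he
  have hgL : Nat.lcm d e * Nat.gcd d e = b := by rw [hde, mul_comm, Nat.gcd_mul_lcm]
  have hg1 : (Nat.gcd d e : ℤ) ∣ 2 * y := by
    have h1 : (Nat.gcd d e : ℤ) ∣ (x0 : ℤ) - y := (Int.natCast_dvd_natCast.2 (Nat.gcd_dvd_left d e)).trans hx0'.1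
    have h2 : (Nat.gcd d e : ℤ) ∣ (x0 : ℤ) + y := (Int.natCast_dvd_natCast.2 (Nat.gcd_dvd_right d e)).trans hx0'.2
    have h3 := dvd_sub h2 h1
    have h4 : (x0 : ℤ) + y - ((x0 : ℤ) - y) = 2 * y := by ring
    rwa [h4] at h3
  have hg2 : (Nat.gcd d e : ℤ) ^ 2 ∣ y ^ 2 - n := by
    refine dvd_trans ?_ hy
    rw [hde]
    push_cast
    rw [sq]
    exact mul_dvd_mul (Int.natCast_dvd_natCast.2 (Nat.gcd_dvd_left d e)) (Int.natCast_dvd_natCast.2 (Nat.gcd_dvd_right d e))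
  have hg3 : (Nat.gcd d e : ℤ) ^ 2 ∣ 4 * n := by
    have h1 := pow_dvd_pow_of_dvd hg1 2
    have h2 := dvd_sub h1 (hg2.mul_left 4)
    have h3 : (2 * y) ^ 2 - 4 * (y ^ 2 - n) = 4 * n := by ring
    rwa [h3] at h2
  have hg4 : Nat.gcd d e ^ 2 ≤ 4 * n.natAbs := by
    have h1 : (Nat.gcd d e) ^ 2 ∣ (4 * n).natAbs := by
      have := Int.natAbs_dvd_natAbs.2 hg3
      simpa [Int.natAbs_pow] using this
    rw [Int.natAbs_mul] at h1
    exact Nat.le_of_dvd (Nat.mul_pos (by norm_num) (Int.natAbs_pos.2 hn)) h1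
  have hg5 : Nat.gcd d e ≤ 4 * n.natAbs := le_trans (by nlinarith) hg4
  refine le_trans ?_ hg5
  have : A.card ≤ (Finset.range (Nat.gcd d e)).card := by
    refine Finset.card_le_card_of_injOn (fun x => x / Nat.lcm d e) ?_ ?_
    · intro x hx
      have hx1 : x < b := Finset.mem_range.1 (Finset.mem_filter.1 hx).1
      simp only [Finset.coe_range, Set.mem_Iio]
      rw [Nat.div_lt_iff_lt_mul hLpos, mul_comm, hgL]
      exact hx1
    · intro x hx x' hx' hxx'
      have hx1 := (Finset.mem_filter.1 hx).2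
      have hx1' := (Finset.mem_filter.1 hx').2
      simp only at hxx'
      have h1 : (d : ℤ) ∣ (x : ℤ) - x' := by
        have := dvd_sub hx1.1 hx1'.1
        have h4 : (x : ℤ) - y - ((x' : ℤ) - y) = (x : ℤ) - x' := by ring
        rwa [h4] at this
      have h2 : (e : ℤ) ∣ (x : ℤ) - x' := by
        have := dvd_sub hx1.2 hx1'.2
        have h4 : (x : ℤ) + y - ((x' : ℤ) + y) = (x : ℤ) - x' := by ring
        rwa [h4] at this
      have h3 : Nat.lcm d e ∣ ((x : ℤ) - x').natAbs :=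
        Nat.lcm_dvd (Int.natCast_dvd.1 h1) (Int.natCast_dvd.1 h2)
      have h4 : x % Nat.lcm d e = x' % Nat.lcm d e := by
        have h5 : (Nat.lcm d e : ℤ) ∣ (x : ℤ) - x' := Int.natCast_dvd.2 h3
        have h6 : (x' : ℤ) ≡ (x : ℤ) [ZMOD (Nat.lcm d e : ℤ)] := (Int.modEq_iff_dvd).2 h5
        exact ((Int.natCast_modEq_iff).1 h6.symm)
      rw [← Nat.div_add_mod x (Nat.lcm d e), ← Nat.div_add_mod x' (Nat.lcm d e), h4, hxx']
  simpa using this

theorem rho_le (n : ℤ) (hn : n ≠ 0) (b : ℕ) : rho n b ≤ 4 * n.natAbs * b.divisors.card := by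
  rcases Nat.eq_zero_or_pos b with hb | hb
  · simp [hb, rho_zero]
  unfold rho
  rcases ((Finset.range b).filter (fun x : ℕ => (b : ℤ) ∣ (x : ℤ) ^ 2 - n)).eq_empty_or_nonempty with h0 | ⟨y, hy⟩
  · rw [h0]; simp
  have hy' := (Finset.mem_filter.1 hy).2
  calc ((Finset.range b).filter (fun x : ℕ => (b : ℤ) ∣ (x : ℤ) ^ 2 - n)).card
      ≤ (b.divisors.biUnion (fun d => (Finset.range b).filter
          (fun x : ℕ => (d : ℤ) ∣ (x : ℤ) - y ∧ ((b / d : ℕ) : ℤ) ∣ (x : ℤ) + y))).card := by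
        apply Finset.card_le_card
        intro x hx
        simp only [mem_filter, mem_range] at hx
        have h1 : (b : ℤ) ∣ ((x : ℤ) - y) * ((x : ℤ) + y) := by
          have := dvd_sub hx.2 hy'
          have h4 : (x : ℤ) ^ 2 - n - ((y : ℤ) ^ 2 - n) = ((x : ℤ) - y) * ((x : ℤ) + y) := by ring
          rwa [h4] at this
        obtain ⟨a1, a2, h2, h3, h4⟩ := exists_dvd_and_dvd_of_dvd_mul h1
        have h5 : b = a1.natAbs * a2.natAbs := by
          have := congrArg Int.natAbs h4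
          simpa [Int.natAbs_mul] using this
        have ha1 : 0 < a1.natAbs := Nat.pos_of_ne_zero (by intro h; rw [h] at h5; simp at h5; omega)
        simp only [mem_biUnion, Nat.mem_divisors, mem_filter, mem_range]
        refine ⟨a1.natAbs, ⟨⟨a2.natAbs, h5⟩, hb.ne'⟩, hx.1, ?_, ?_⟩
        · exact Int.natAbs_dvd.2 h2
        · have h6 : b / a1.natAbs = a2.natAbs := by
            conv_lhs => rw [h5]
            exact Nat.mul_div_cancel_left _ ha1
          rw [h6]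
          exact Int.natAbs_dvd.2 h3
    _ ≤ ∑ d ∈ b.divisors, ((Finset.range b).filter
          (fun x : ℕ => (d : ℤ) ∣ (x : ℤ) - y ∧ ((b / d : ℕ) : ℤ) ∣ (x : ℤ) + y)).card :=
        Finset.card_biUnion_le
    _ ≤ ∑ d ∈ b.divisors, 4 * n.natAbs := by
        apply Finset.sum_le_sum
        intro d hd
        exact card_two_cong_le n hn b d (b / d) hb
          (Nat.mul_div_cancel' (Nat.dvd_of_mem_divisors hd)).symm y hy'
    _ = 4 * n.natAbs * b.divisors.card := by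
        rw [Finset.sum_const, smul_eq_mul, mul_comm]

theorem rho_prime (n : ℤ) (p : ℕ) (hp : p.Prime) (hp2 : p ≠ 2) :
    (rho n p : ℤ) = jacobiSym n p + 1 := by
  have : Fact p.Prime := ⟨hp⟩
  have : NeZero p := ⟨hp.ne_zero⟩
  have h := legendreSym.card_sqrts p hp2 n
  rw [← jacobiSym.legendreSym.to_jacobiSym, ← h, rho_eq_card]
  congr 1
  rw [Nat.subtype_card (Finset.univ.filter (fun x : ZMod p => x ^ 2 = (n : ZMod p)))
    (by intro x; simp)]
  congr 1
  ext x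
  simp

theorem rho_pow_succ (n : ℤ) (p : ℕ) (hp : p.Prime) (hp2 : p ≠ 2) (hpn : ¬ (p : ℤ) ∣ n) (k : ℕ)
    (hk : 1 ≤ k) : rho n (p ^ (k + 1)) = rho n (p ^ k) := by
  have hpk : 0 < p ^ k := pow_pos hp.pos k
  have hpk1 : 0 < p ^ (k + 1) := pow_pos hp.pos _
  have hdvd : p ^ k ∣ p ^ (k + 1) := pow_dvd_pow p (Nat.le_succ k)
  have hpp : p ∣ p ^ k := dvd_pow_self p (by omega)
  have hpZ : Prime (p : ℤ) := Nat.prime_iff_prime_int.1 hp
  have h2x : ∀ x : ℤ, (p : ℤ) ∣ x ^ 2 - n → ¬ (p : ℤ) ∣ 2 * x := by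
    intro x hx h
    rcases hpZ.dvd_or_dvd h with h | h
    · have : p ∣ 2 := by exact_mod_cast h
      exact hp2 ((Nat.prime_dvd_prime_iff_eq hp Nat.prime_two).1 this)
    · apply hpn
      have h1 : (p : ℤ) ∣ x ^ 2 := dvd_pow h (by norm_num)
      have h2 := dvd_sub h1 hx
      rwa [sub_sub_cancel] at h2
  unfold rho
  refine Finset.card_bij (fun x _ => x % p ^ k) ?_ ?_ ?_
  · intro x hx
    simp only [mem_filter, mem_range] at hx ⊢
    refine ⟨Nat.mod_lt _ hpk, ?_⟩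
    have h1 : ((p ^ k : ℕ) : ℤ) ∣ (x : ℤ) ^ 2 - n := (Int.natCast_dvd_natCast.2 hdvd).trans hx.2
    have h2 : ((p ^ k : ℕ) : ℤ) ∣ (x : ℤ) - ((x % p ^ k : ℕ) : ℤ) := by
      rw [Int.natCast_mod]
      exact Int.dvd_self_sub_emod
    have h3 : ((p ^ k : ℕ) : ℤ) ∣ (x : ℤ) ^ 2 - ((x % p ^ k : ℕ) : ℤ) ^ 2 := by
      rw [sq_sub_sq]
      exact h2.mul_left _
    have h4 := dvd_sub h1 h3
    have h5 : (x : ℤ) ^ 2 - n - ((x : ℤ) ^ 2 - ((x % p ^ k : ℕ) : ℤ) ^ 2) = ((x % p ^ k : ℕ) : ℤ) ^ 2 - n := by ring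
    rwa [h5] at h4
  · intro x hx x' hx' hxx'
    simp only [mem_filter, mem_range] at hx hx'
    have h1 : ((p ^ (k + 1) : ℕ) : ℤ) ∣ ((x : ℤ) + x') * ((x : ℤ) - x') := by
      have := dvd_sub hx.2 hx'.2
      have h4 : (x : ℤ) ^ 2 - n - ((x' : ℤ) ^ 2 - n) = ((x : ℤ) + x') * ((x : ℤ) - x') := by ring
      rwa [h4] at this
    have h2 : ¬ (p : ℤ) ∣ (x : ℤ) + x' := by
      intro h
      have h3 : (p : ℤ) ∣ (x : ℤ) - x' := by
        have h4 : x ≡ x' [MOD p ^ k] := hxx'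
        have h5 := (Nat.modEq_iff_dvd.1 h4.symm)
        exact (Int.natCast_dvd_natCast.2 hpp).trans h5
      have h6 := dvd_add h h3
      have h7 : (x : ℤ) + x' + ((x : ℤ) - x') = 2 * x := by ring
      rw [h7] at h6
      refine h2x x ?_ h6
      exact (Int.natCast_dvd_natCast.2 (hpp.trans hdvd)).trans hx.2
    have h8 : IsCoprime ((p ^ (k + 1) : ℕ) : ℤ) ((x : ℤ) + x') := by
      push_cast
      exact IsCoprime.pow_left ((Prime.coprime_iff_not_dvd hpZ).2 h2)
    have h9 := h8.dvd_of_dvd_mul_left h1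
    have h10 : x' ≡ x [MOD p ^ (k + 1)] := Nat.modEq_iff_dvd.2 h9
    have h11 := h10.symm
    unfold Nat.ModEq at h11
    rwa [Nat.mod_eq_of_lt hx.1, Nat.mod_eq_of_lt hx'.1] at h11
  · intro y hy
    simp only [mem_filter, mem_range] at hy
    obtain ⟨hy1, q, hq⟩ := hy
    have hpy : (p : ℤ) ∣ (y : ℤ) ^ 2 - n := (Int.natCast_dvd_natCast.2 hpp).trans ⟨q, hq⟩
    have hcop : IsCoprime (p : ℤ) (2 * y) := (Prime.coprime_iff_not_dvd hpZ).2 (h2x y hpy)
    obtain ⟨u, v, huv⟩ := hcop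
    -- t = (-q * v) mod p
    have hpz0 : (p : ℤ) ≠ 0 := by exact_mod_cast hp.ne_zero
    obtain ⟨t, ht⟩ : ∃ t : ℕ, (t : ℤ) = (-q * v) % p :=
      ⟨((-q * v) % p).toNat, Int.toNat_of_nonneg (Int.emod_nonneg _ hpz0)⟩
    have htp : t < p := by
      have := Int.emod_lt_of_pos (-q * v) (by exact_mod_cast hp.pos : (0 : ℤ) < p)
      rw [← ht] at this
      exact_mod_cast this
    have ht1 : (p : ℤ) ∣ q + 2 * y * t := by
      have h1 : (p : ℤ) ∣ (-q * v) - t := by rw [ht]; exact Int.dvd_self_sub_emod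
      have h2 : q + 2 * y * t = (p : ℤ) * (u * q) - 2 * y * ((-q * v) - t) := by
        have : q * (u * p + v * (2 * y)) = q := by rw [huv, mul_one]
        linear_combination (-1 : ℤ) * this
      rw [h2]
      exact dvd_sub (dvd_mul_right _ _) (h1.mul_left _)
    refine ⟨y + p ^ k * t, ?_, ?_⟩
    · simp only [mem_filter, mem_range]
      constructor
      · calc y + p ^ k * t < p ^ k + p ^ k * t := by omega
          _ = p ^ k * (t + 1) := by ring
          _ ≤ p ^ k * p := Nat.mul_le_mul_left _ htp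
          _ = p ^ (k + 1) := (pow_succ p k).symm
      · obtain ⟨w, hw⟩ := ht1
        push_cast
        have h3 : ((y : ℤ) + (p : ℤ) ^ k * t) ^ 2 - n = (p : ℤ) ^ k * (q + 2 * y * t) + (p : ℤ) ^ (k + k) * t ^ 2 := by
          have hq' : (y : ℤ) ^ 2 - n = (p : ℤ) ^ k * q := by rw [hq]; push_cast; ring
          linear_combination hq'
        rw [h3, hw]
        apply dvd_add
        · rw [← mul_assoc, ← pow_succ]
          exact dvd_mul_right _ _
        · exact Dvd.dvd.mul_right (pow_dvd_pow _ (by omega)) _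
    · simp only [Nat.add_mul_mod_self_left]
      exact Nat.mod_eq_of_lt hy1

theorem rho_prime_pow (n : ℤ) (p : ℕ) (hp : p.Prime) (hp2 : p ≠ 2) (hpn : ¬ (p : ℤ) ∣ n) (k : ℕ)
    (hk : 1 ≤ k) : (rho n (p ^ k) : ℤ) = jacobiSym n p + 1 := by
  induction k, hk using Nat.le_induction with
  | base => rw [pow_one]; exact rho_prime n p hp hp2
  | succ k hk ih => rw [rho_pow_succ n p hp hp2 hpn k hk]; exact ih

end Pool.Agent.Helper919
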