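import Mathlib
import Pool.Agent.H27.G.R_seed8.Helper919.Rho

set_option autoImplicit false

namespace Pool.Agent.Helper919

open Finset ArithmeticFunction
open scoped ArithmeticFunction.Moebius ArithmeticFunction.zeta

/-- value of a Dirichlet convolution at a prime power -/
theorem conv_pp (f g : ArithmeticFunction ℝ) {p : ℕ} (hp : p.Prime) (k : ℕ) :
    (f * g) (p ^ k) = ∑ i ∈ range (k + 1), f (p ^ i) * g (p ^ (k - i)) := by
  rw [ArithmeticFunction.mul_apply, Nat.sum_divisorsAntidiagonal (fun a b => f a * g b),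
    Nat.sum_divisors_prime_pow hp]
  refine Finset.sum_congr rfl fun i hi => ?_
  rw [Nat.pow_div (by simpa [Nat.lt_succ_iff] using hi) hp.pos]

/-- convolution with a function vanishing at `p ^ i`, `i ≥ 1` -/
theorem conv_pp_right_trivial (f g : ArithmeticFunction ℝ) {p : ℕ} (hp : p.Prime) (k : ℕ)
    (hg1 : g 1 = 1) (hg : ∀ i, 1 ≤ i → g (p ^ i) = 0) : (f * g) (p ^ k) = f (p ^ k) := by
  rw [conv_pp f g hp k, Finset.sum_range_succ]
  rw [Finset.sum_eq_zero, zero_add, Nat.sub_self, pow_zero, hg1, mul_one]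
  intro i hi
  rw [hg (k - i) (by have := Finset.mem_range.1 hi; omega), mul_zero]

theorem conv_pp_left_trivial (f g : ArithmeticFunction ℝ) {p : ℕ} (hp : p.Prime) (k : ℕ)
    (hf1 : f 1 = 1) (hf : ∀ i, 1 ≤ i → f (p ^ i) = 0) : (f * g) (p ^ k) = g (p ^ k) := by
  rw [mul_comm]
  exact conv_pp_right_trivial g f hp k hf1 hf

/-- the modulus -/
def qq (n : ℤ) : ℕ := 2 * n.natAbs

theorem qq_pos {n : ℤ} (hn : n ≠ 0) : 0 < qq n := by
  have := Int.natAbs_pos.2 hn
  unfold qq; omega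

/-- `rho` as an arithmetic function -/
def rhoA (n : ℤ) : ArithmeticFunction ℝ := ⟨fun c => (rho n c : ℝ), by simp [rho_zero]⟩

theorem rhoA_apply (n : ℤ) (c : ℕ) : rhoA n c = (rho n c : ℝ) := rfl

/-- the quadratic symbol -/
def XX (n : ℤ) : ArithmeticFunction ℝ :=
  ⟨fun d => if Odd d then ((jacobiSym n d : ℤ) : ℝ) else 0, by simp⟩

theorem XX_apply (n : ℤ) (d : ℕ) : XX n d = if Odd d then ((jacobiSym n d : ℤ) : ℝ) else 0 := rfl

/-- indicator of being coprime to the modulus -/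
def D0 (n : ℤ) : ArithmeticFunction ℝ :=
  ⟨fun d => if d ≠ 0 ∧ d.Coprime (qq n) then 1 else 0, by simp⟩

theorem D0_apply (n : ℤ) (d : ℕ) : D0 n d = if d ≠ 0 ∧ d.Coprime (qq n) then 1 else 0 := rfl

/-- indicator of the divisors of the modulus -/
def DQ (n : ℤ) : ArithmeticFunction ℝ :=
  ⟨fun d => if d ≠ 0 ∧ d ∣ (qq n) then 1 else 0, by simp⟩

theorem DQ_apply (n : ℤ) (d : ℕ) : DQ n d = if d ≠ 0 ∧ d ∣ qq n then 1 else 0 := rfl

/-- Moebius function restricted to divisors of the modulus -/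
noncomputable def MQ (n : ℤ) : ArithmeticFunction ℝ := pmul (μ : ArithmeticFunction ℝ) (DQ n)

/-- twisted inverse of the square indicator -/
noncomputable def M2 : ArithmeticFunction ℝ :=
  pmul (μ : ArithmeticFunction ℝ) (μ : ArithmeticFunction ℝ) * (μ : ArithmeticFunction ℝ)

noncomputable def Sq (n : ℤ) : ArithmeticFunction ℝ := pmul (D0 n) M2

/-- `rho` restricted to numbers composed of primes dividing the modulus -/
noncomputable def rho1 (n : ℤ) : ArithmeticFunction ℝ :=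
  ⟨fun c => if c ∈ Nat.factoredNumbers (qq n).primeFactors then (rho n c : ℝ) else 0, by
    simp [rho_zero]⟩

theorem rho1_apply (n : ℤ) (c : ℕ) :
    rho1 n c = if c ∈ Nat.factoredNumbers (qq n).primeFactors then (rho n c : ℝ) else 0 := rfl

theorem rhoA_mult (n : ℤ) : (rhoA n).IsMultiplicative := by
  refine ⟨by simp [rhoA_apply, rho_one], fun {a b} hab => ?_⟩
  rw [rhoA_apply, rhoA_apply, rhoA_apply, rho_mul n hab]
  push_cast; ring

theorem XX_mul (n : ℤ) (a b : ℕ) : XX n (a * b) = XX n a * XX n b := by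
  rw [XX_apply, XX_apply, XX_apply]
  by_cases ha : Odd a
  · by_cases hb : Odd b
    · rw [if_pos ha, if_pos hb, if_pos (ha.mul hb)]
      have : NeZero a := ⟨ha.pos.ne'⟩
      have : NeZero b := ⟨hb.pos.ne'⟩
      rw [jacobiSym.mul_right]
      push_cast; ring
    · rw [if_neg hb, if_neg (fun h => hb (Nat.odd_mul.1 h).2), mul_zero]
  · rw [if_neg ha, if_neg (fun h => ha (Nat.odd_mul.1 h).1), zero_mul]

theorem XX_one (n : ℤ) : XX n 1 = 1 := by simp [XX_apply]

theorem XX_mult (n : ℤ) : (XX n).IsMultiplicative :=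
  ⟨XX_one n, fun {a b} _ => XX_mul n a b⟩

theorem XX_pow (n : ℤ) (a k : ℕ) : XX n (a ^ k) = XX n a ^ k := by
  induction k with
  | zero => simp [XX_one]
  | succ k ih => rw [pow_succ, XX_mul, ih, pow_succ]

theorem XX_eq_zero_of_dvd {n : ℤ} {p : ℕ} (hp : p.Prime) (h : p ∣ qq n) : XX n p = 0 := by
  rw [XX_apply]
  by_cases ho : Odd p
  · rw [if_pos ho]
    have hp2 : p ≠ 2 := by rintro rfl; exact absurd ho (by decide)
    have h1 : p ∣ n.natAbs := by
      unfold qq at h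
      rcases (Nat.Prime.dvd_mul hp).1 h with h | h
      · exact absurd ((Nat.prime_dvd_prime_iff_eq hp Nat.prime_two).1 h) hp2
      · exact h
    have : NeZero p := ⟨hp.ne_zero⟩
    have h2 : jacobiSym n p = 0 := by
      rw [jacobiSym.eq_zero_iff_not_coprime]
      intro h3
      have h4 : p ∣ n.gcd p := by
        rw [Int.gcd_eq_natAbs]
        exact Nat.dvd_gcd h1 (by simp)
      rw [h3] at h4
      exact hp.one_lt.ne' (Nat.dvd_one.1 h4)
    rw [h2]; simp
  · rw [if_neg ho]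

theorem not_dvd_facts {n : ℤ} {p : ℕ} (hp : p.Prime) (h : ¬ p ∣ qq n) :
    p ≠ 2 ∧ ¬ (p : ℤ) ∣ n := by
  constructor
  · rintro rfl
    exact h (Dvd.intro _ rfl)
  · intro h1
    apply h
    have h2 : p ∣ n.natAbs := by
      exact Int.natCast_dvd.1 h1
    exact h2.mul_left 2

theorem XX_of_not_dvd {n : ℤ} {p : ℕ} (hp : p.Prime) (h : ¬ p ∣ qq n) :
    XX n p = ((jacobiSym n p : ℤ) : ℝ) ∧ (XX n p = 1 ∨ XX n p = -1) := by
  obtain ⟨hp2, hpn⟩ := not_dvd_facts hp h
  have ho : Odd p := hp.odd_of_ne_two hp2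
  have h1 : XX n p = ((jacobiSym n p : ℤ) : ℝ) := by rw [XX_apply, if_pos ho]
  refine ⟨h1, ?_⟩
  rw [h1]
  have hg : n.gcd p = 1 := by
    rw [Int.gcd_eq_natAbs]
    have : ¬ p ∣ n.natAbs := fun h2 => hpn (Int.natCast_dvd.2 h2)
    simpa using ((Nat.Prime.coprime_iff_not_dvd hp).2 this).symm
  rcases jacobiSym.eq_one_or_neg_one hg with h2 | h2 <;> rw [h2] <;> simp

theorem D0_mult {n : ℤ} : (D0 n).IsMultiplicative := by
  rw [IsMultiplicative.iff_ne_zero]
  refine ⟨by simp [D0_apply], fun {a b} ha hb _ => ?_⟩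
  simp only [D0_apply]
  by_cases h1 : a.Coprime (qq n)
  · by_cases h2 : b.Coprime (qq n)
    · rw [if_pos ⟨mul_ne_zero ha hb, Nat.Coprime.mul_left h1 h2⟩, if_pos ⟨ha, h1⟩, if_pos ⟨hb, h2⟩, mul_one]
    · have h3 : ¬ (a * b ≠ 0 ∧ (a * b).Coprime (qq n)) :=
        fun h => h2 (Nat.coprime_mul_iff_left.1 h.2).2
      have h4 : ¬ (b ≠ 0 ∧ b.Coprime (qq n)) := fun h => h2 h.2
      rw [if_neg h3, if_neg h4, mul_zero]
  · have h3 : ¬ (a * b ≠ 0 ∧ (a * b).Coprime (qq n)) :=
      fun h => h1 (Nat.coprime_mul_iff_left.1 h.2).1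
    have h4 : ¬ (a ≠ 0 ∧ a.Coprime (qq n)) := fun h => h1 h.2
    rw [if_neg h3, if_neg h4, zero_mul]

theorem DQ_mult {n : ℤ} : (DQ n).IsMultiplicative := by
  rw [IsMultiplicative.iff_ne_zero]
  refine ⟨by simp [DQ_apply], fun {a b} ha hb hab => ?_⟩
  simp only [DQ_apply]
  have : a * b ∣ qq n ↔ (a ∣ qq n ∧ b ∣ qq n) :=
    ⟨fun h => ⟨(dvd_mul_right a b).trans h, (dvd_mul_left b a).trans h⟩,
      fun h => hab.mul_dvd_of_dvd_of_dvd h.1 h.2⟩
  by_cases h1 : a ∣ qq n <;> by_cases h2 : b ∣ qq n <;> simp [h1, h2, this, ha, hb]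

theorem MQ_mult {n : ℤ} : (MQ n).IsMultiplicative :=
  isMultiplicative_moebius.intCast.pmul DQ_mult

theorem M2_mult : M2.IsMultiplicative :=
  (isMultiplicative_moebius.intCast.pmul isMultiplicative_moebius.intCast).mul
    isMultiplicative_moebius.intCast

theorem Sq_mult {n : ℤ} : (Sq n).IsMultiplicative := D0_mult.pmul M2_mult

theorem rho1_mult {n : ℤ} : (rho1 n).IsMultiplicative := by
  rw [IsMultiplicative.iff_ne_zero]
  have h1mem : 1 ∈ Nat.factoredNumbers (qq n).primeFactors := ⟨one_ne_zero, by simp⟩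
  refine ⟨by simp [rho1_apply, rho_one, h1mem], fun {a b} ha hb hab => ?_⟩
  simp only [rho1_apply]
  have : a * b ∈ Nat.factoredNumbers (qq n).primeFactors ↔
      (a ∈ Nat.factoredNumbers (qq n).primeFactors ∧ b ∈ Nat.factoredNumbers (qq n).primeFactors) := by
    constructor
    · intro h
      exact ⟨Nat.mem_factoredNumbers_of_dvd h (dvd_mul_right a b),
        Nat.mem_factoredNumbers_of_dvd h (dvd_mul_left b a)⟩
    · rintro ⟨h1, h2⟩
      exact Nat.mul_mem_factoredNumbers h1 h2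
  by_cases h1 : a ∈ Nat.factoredNumbers (qq n).primeFactors <;>
    by_cases h2 : b ∈ Nat.factoredNumbers (qq n).primeFactors <;>
    simp [h1, h2, this, rho_mul n hab]

theorem mu_pp {p : ℕ} (hp : p.Prime) (k : ℕ) :
    (μ : ArithmeticFunction ℝ) (p ^ k) = if k = 0 then 1 else if k = 1 then -1 else 0 := by
  rw [intCoe_apply]
  rcases Nat.eq_zero_or_pos k with h | h
  · simp [h]
  · rw [moebius_apply_prime_pow hp h.ne']
    by_cases h1 : k = 1
    · simp [h1]
    · simp [h1, h.ne']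

theorem M2_pp {p : ℕ} (hp : p.Prime) (k : ℕ) :
    M2 (p ^ k) = if k = 0 then 1 else if k = 2 then -1 else 0 := by
  unfold M2
  rw [conv_pp _ _ hp k]
  simp only [pmul_apply, mu_pp hp]
  rcases k with _ | _ | _ | k
  · simp
  · simp [Finset.sum_range_succ]
  · simp [Finset.sum_range_succ]
  · rw [if_neg (by omega), if_neg (by omega)]
    apply Finset.sum_eq_zero
    intro i hi
    have hi' := Finset.mem_range.1 hi
    by_cases h0 : i = 0
    · subst h0
      rw [if_neg (show ¬ (k + 1 + 1 + 1 - 0 = 0) by omega), if_neg (show ¬ (k + 1 + 1 + 1 - 0 = 1) by omega), mul_zero]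
    · by_cases h1 : i = 1
      · subst h1
        rw [if_neg (show ¬ (k + 1 + 1 + 1 - 1 = 0) by omega), if_neg (show ¬ (k + 1 + 1 + 1 - 1 = 1) by omega), mul_zero]
      · rw [if_neg h0, if_neg h1]; simp

theorem D0_pp_of_dvd {n : ℤ} {p : ℕ} (hp : p.Prime) (h : p ∣ qq n) (k : ℕ) (hk : 1 ≤ k) :
    D0 n (p ^ k) = 0 := by
  rw [D0_apply, if_neg]
  rintro ⟨_, h2⟩
  have h3 := Nat.Coprime.coprime_dvd_left (dvd_pow_self p (by omega : k ≠ 0)) h2
  exact ((Nat.Prime.coprime_iff_not_dvd hp).1 h3) h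

theorem D0_pp_of_not_dvd {n : ℤ} {p : ℕ} (hp : p.Prime) (h : ¬ p ∣ qq n) (k : ℕ) :
    D0 n (p ^ k) = 1 := by
  rw [D0_apply, if_pos]
  exact ⟨(pow_pos hp.pos k).ne', Nat.Coprime.pow_left k ((Nat.Prime.coprime_iff_not_dvd hp).2 h)⟩

theorem MQ_zeta {n : ℤ} : MQ n * (ζ : ArithmeticFunction ℝ) = D0 n := by
  rw [IsMultiplicative.eq_iff_eq_on_prime_powers _ (MQ_mult.mul isMultiplicative_zeta.natCast) _ D0_mult]
  intro p k hp
  rw [coe_mul_zeta_apply, Nat.sum_divisors_prime_pow hp]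
  simp only [MQ, pmul_apply, mu_pp hp, DQ_apply]
  rcases Nat.eq_zero_or_pos k with hk | hk
  · subst hk; simp [D0_apply]
  obtain ⟨k, rfl⟩ := Nat.exists_eq_succ_of_ne_zero hk.ne'
  rw [Finset.sum_range_succ', Finset.sum_range_succ']
  have hz : ∑ i ∈ range k, ((if i + 1 + 1 = 0 then (1 : ℝ) else if i + 1 + 1 = 1 then -1 else 0) *
      if p ^ (i + 1 + 1) ≠ 0 ∧ p ^ (i + 1 + 1) ∣ qq n then 1 else 0) = 0 := by
    apply Finset.sum_eq_zero
    intro i _
    rw [if_neg (by omega), if_neg (by omega), zero_mul]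
  rw [hz]
  by_cases h : p ∣ qq n
  · rw [D0_pp_of_dvd hp h _ hk]
    simp [h, hp.ne_zero]
  · rw [D0_pp_of_not_dvd hp h]
    simp [h]

theorem Sq_conv {n : ℤ} : Sq n * (D0 n * XX n) = pmul (rhoA n) (D0 n) := by
  rw [IsMultiplicative.eq_iff_eq_on_prime_powers _ (Sq_mult.mul (D0_mult.mul (XX_mult n))) _
    ((rhoA_mult n).pmul D0_mult)]
  intro p k hp
  by_cases h : p ∣ qq n
  · rw [conv_pp_left_trivial _ _ hp k Sq_mult.map_one, conv_pp_left_trivial _ _ hp k D0_mult.map_one]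
    · rcases Nat.eq_zero_or_pos k with hk | hk
      · subst hk; simp [XX_one, rhoA_apply, rho_one, D0_apply]
      · rw [XX_pow, XX_eq_zero_of_dvd hp h, pmul_apply, D0_pp_of_dvd hp h k hk, zero_pow hk.ne', mul_zero]
    · exact fun i hi => D0_pp_of_dvd hp h i hi
    · intro i hi
      rw [Sq, pmul_apply, D0_pp_of_dvd hp h i hi, zero_mul]
  · obtain ⟨hX, hX2⟩ := XX_of_not_dvd hp h
    obtain ⟨hp2, hpn⟩ := not_dvd_facts hp h
    rw [pmul_apply, D0_pp_of_not_dvd hp h, mul_one]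
    have hr2 : ∀ j, (D0 n * XX n) (p ^ j) = ∑ i ∈ range (j + 1), (XX n p) ^ i := by
      intro j
      rw [mul_comm (D0 n) (XX n), conv_pp _ _ hp j]
      refine Finset.sum_congr rfl fun i _ => ?_
      rw [D0_pp_of_not_dvd hp h, mul_one, XX_pow]
    have hsq : ∀ i, Sq n (p ^ i) = if i = 0 then 1 else if i = 2 then -1 else 0 := by
      intro i
      rw [Sq, pmul_apply, D0_pp_of_not_dvd hp h, one_mul, M2_pp hp]
    rw [conv_pp _ _ hp k]
    simp only [hsq, hr2]
    rcases k with _ | _ | k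
    · simp [rhoA_apply, rho_one]
    · rw [rhoA_apply]
      have hr := rho_prime_pow n p hp hp2 hpn 1 le_rfl
      have hr' : (rho n (p ^ 1) : ℝ) = XX n p + 1 := by
        rw [hX]; exact_mod_cast hr
      rw [zero_add, hr']
      simp [Finset.sum_range_succ]
      ring
    · have hr := rho_prime_pow n p hp hp2 hpn (k + 1 + 1) (by omega)
      have hr' : (rho n (p ^ (k + 1 + 1)) : ℝ) = XX n p + 1 := by
        rw [hX]; exact_mod_cast hr
      rw [rhoA_apply, hr']
      rw [Finset.sum_range_succ', Finset.sum_range_succ', Finset.sum_range_succ']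
      have hz : ∑ i ∈ range k, (if i + 1 + 1 + 1 = 0 then (1 : ℝ) else if i + 1 + 1 + 1 = 2 then -1 else 0) *
          ∑ i ∈ range (k + 1 + 1 - (i + 1 + 1 + 1) + 1), XX n p ^ i = 0 := by
        apply Finset.sum_eq_zero
        intro i _
        rw [if_neg (by omega), if_neg (by omega), zero_mul]
      rw [hz]
      simp only [zero_add, Nat.add_eq_zero_iff, one_ne_zero, and_false, if_false, Nat.reduceAdd]
      simp only [if_true, Nat.sub_zero]
      norm_num
      rw [Finset.sum_range_succ, Finset.sum_range_succ]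
      rcases hX2 with hx | hx <;> rw [hx]
      · simp; ring
      · rcases Nat.even_or_odd k with he | ho
        · have h2 : Even (k + 2) := he.add even_two
          simp [he, h2]
        · have h1 : ¬ Even k := Nat.not_even_iff_odd.2 ho
          have h2 : ¬ Even (k + 2) := by simpa [Nat.even_add] using h1
          simp [h1, h2]
          ring

theorem rho1_conv {n : ℤ} (hn : n ≠ 0) : rho1 n * pmul (rhoA n) (D0 n) = rhoA n := by
  rw [IsMultiplicative.eq_iff_eq_on_prime_powers _ (rho1_mult.mul ((rhoA_mult n).pmul D0_mult)) _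
    (rhoA_mult n)]
  intro p k hp
  by_cases h : p ∣ qq n
  · rw [conv_pp_right_trivial _ _ hp k ((rhoA_mult n).pmul D0_mult).map_one]
    · rw [rho1_apply, if_pos, rhoA_apply]
      have hmem : p ∈ (qq n).primeFactors := Nat.mem_primeFactors.2 ⟨hp, h, (qq_pos hn).ne'⟩
      rw [Nat.mem_factoredNumbers']
      intro r hr hrp
      rwa [(Nat.prime_dvd_prime_iff_eq hr hp).1 (hr.dvd_of_dvd_pow hrp)]
    · intro i hi
      rw [pmul_apply, D0_pp_of_dvd hp h i hi, mul_zero]
  · rw [conv_pp_left_trivial _ _ hp k rho1_mult.map_one]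
    · rw [pmul_apply, D0_pp_of_not_dvd hp h, mul_one]
    · intro i hi
      rw [rho1_apply, if_neg]
      rw [Nat.mem_factoredNumbers']
      intro h3
      have h4 := h3 p hp (dvd_pow_self p (by omega))
      exact h (Nat.dvd_of_mem_primeFactors h4)

theorem rhoA_decomp {n : ℤ} (hn : n ≠ 0) :
    rhoA n = rho1 n * (Sq n * (MQ n * (XX n * (ζ : ArithmeticFunction ℝ)))) := by
  have h1 : MQ n * (XX n * (ζ : ArithmeticFunction ℝ)) = D0 n * XX n := by
    rw [← MQ_zeta]; ring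
  rw [h1, Sq_conv, rho1_conv hn]

end Pool.Agent.Helper919
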